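import Pool.Agent.H.MP_79518d_co.Defs

set_option autoImplicit false
set_option linter.unusedSectionVars false

namespace Pool.Agent.H.MP_79518d_co

open Finset

variable {V : Type} [Fintype V] [DecidableEq V]

def mu (M : Multiset V) (X : Finset V) : ℤ := (M.countP (· ∈ X) : ℕ)

theorem mu_cons (v : V) (M : Multiset V) (X : Finset V) :
    mu (v ::ₘ M) X = mu M X + if v ∈ X then 1 else 0 := by
  unfold mu; rw [Multiset.countP_cons]; split_ifs <;> simp

theorem mu_zero (X : Finset V) : mu 0 X = 0 := by simp [mu]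

theorem mu_add (M N : Multiset V) (X : Finset V) : mu (M + N) X = mu M X + mu N X := by
  unfold mu; rw [Multiset.countP_add]; simp

theorem mu_nonneg (M : Multiset V) (X : Finset V) : 0 ≤ mu M X := by unfold mu; positivity

theorem mu_mod (M : Multiset V) (X Y : Finset V) :
    mu M (X ∩ Y) + mu M (X ∪ Y) = mu M X + mu M Y := by
  induction M using Multiset.induction_on with
  | empty => simp [mu_zero]
  | cons v M ih =>
    simp only [mu_cons, mem_inter, mem_union]
    by_cases h1 : v ∈ X <;> by_cases h2 : v ∈ Y <;> simp [h1, h2] <;> omega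

theorem mu_compl (M : Multiset V) (X : Finset V) : mu M X + mu M Xᶜ = M.card := by
  induction M using Multiset.induction_on with
  | empty => simp [mu_zero]
  | cons v M ih =>
    simp only [mu_cons, mem_compl, Multiset.card_cons]
    by_cases h1 : v ∈ X <;> simp [h1] <;> omega

theorem mu_mono (M : Multiset V) {X Y : Finset V} (h : X ⊆ Y) : mu M X ≤ mu M Y := by
  induction M using Multiset.induction_on with
  | empty => simp [mu_zero]
  | cons v M ih =>
    simp only [mu_cons]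
    by_cases h1 : v ∈ X
    · simp [h1, h h1, ih]
    · by_cases h2 : v ∈ Y <;> simp [h1, h2] <;> omega

theorem mu_sdiff (M : Multiset V) (X Y : Finset V) :
    mu M (X \ Y) + mu M (X ∩ Y) = mu M X := by
  induction M using Multiset.induction_on with
  | empty => simp [mu_zero]
  | cons v M ih =>
    simp only [mu_cons, mem_inter, mem_sdiff]
    by_cases h1 : v ∈ X <;> by_cases h2 : v ∈ Y <;> simp [h1, h2] <;> omega

theorem mu_sc (M : Multiset V) (X Y : Finset V) :
    mu M (Y \ X) + mu M (X ∪ Y)ᶜ = mu M Xᶜ := by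
  induction M using Multiset.induction_on with
  | empty => simp [mu_zero]
  | cons v M ih =>
    simp only [mu_cons, mem_union, mem_sdiff, mem_compl]
    by_cases h1 : v ∈ X <;> by_cases h2 : v ∈ Y <;> simp [h1, h2, -compl_union] <;> omega

theorem mu_pos {M : Multiset V} {X : Finset V} {v : V} (h : v ∈ M) (hx : v ∈ X) :
    1 ≤ mu M X := by
  obtain ⟨N, rfl⟩ := Multiset.exists_cons_of_mem h
  have := mu_nonneg N X
  rw [mu_cons, if_pos hx]; omega

theorem mu_all {M : Multiset V} {X : Finset V} (h : ∀ v ∈ M, v ∈ X) : mu M X = M.card := by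
  unfold mu; rw [Multiset.countP_eq_card.2 h]

theorem mu_none {M : Multiset V} {X : Finset V} (h : ∀ v ∈ M, v ∉ X) : mu M X = 0 := by
  unfold mu; rw [Multiset.countP_eq_zero.2 h]; simp

theorem mu_le (M : Multiset V) (X : Finset V) : mu M X ≤ M.card := by
  have := mu_compl M X; have := mu_nonneg M Xᶜ; omega

theorem mu_biUnion (M : Multiset V) (W : Finset (Finset V))
    (h : ∀ P ∈ W, ∀ Q ∈ W, P ≠ Q → Disjoint P Q) :
    mu M (W.biUnion id) = ∑ P ∈ W, mu M P := by
  induction W using Finset.induction_on with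
  | empty => simp [mu]
  | insert P W hP ih =>
    rw [biUnion_insert, sum_insert hP, ← ih (fun A hA B hB => h A (by simp [hA]) B (by simp [hB]))]
    have := mu_mod M P (W.biUnion id)
    have e : P ∩ W.biUnion id = ∅ := by
      rw [← disjoint_iff_inter_eq_empty, disjoint_biUnion_right]
      intro Q hQ
      exact h P (by simp) Q (by simp [hQ]) (fun e => hP (e ▸ hQ))
    rw [e] at this
    have e0 : mu M ∅ = 0 := by simp [mu]
    simp only [id] at *
    omega

theorem disjointify (T : Finset V → Prop)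
    (hT : ∀ P Q, T P → T Q → (P ∩ Q).Nonempty → T (P ∪ Q)) :
    ∃ W : Finset (Finset V), (∀ P ∈ W, T P) ∧ (∀ P ∈ W, ∀ Q ∈ W, P ≠ Q → Disjoint P Q) ∧
      ∀ P, T P → P ⊆ W.biUnion id := by
  classical
  refine ⟨univ.filter (fun P => Maximal T P), ?_, ?_, ?_⟩
  · intro P hP; exact (mem_filter.1 hP).2.1
  · intro P hP Q hQ hne
    have hP := (mem_filter.1 hP).2
    have hQ := (mem_filter.1 hQ).2
    by_contra hd
    rw [not_disjoint_iff_nonempty_inter] at hd
    have h := hT P Q hP.1 hQ.1 hd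
    have h1 := hP.2 h subset_union_left
    have h2 := hQ.2 h subset_union_right
    exact hne (Subset.antisymm (subset_union_left.trans h2) (subset_union_right.trans h1))
  · intro P hP
    obtain ⟨Q, hQ, hm⟩ := Finite.exists_le_maximal hP
    intro x hx
    exact mem_biUnion.2 ⟨Q, by simp [hm], hQ hx⟩

def Pr (X : Finset V) : Prop := X.Nonempty ∧ X ≠ univ

theorem Pr.compl {X : Finset V} (h : Pr X) : Pr Xᶜ := by
  refine ⟨?_, ?_⟩
  · by_contra h0
    rw [not_nonempty_iff_eq_empty, compl_eq_empty_iff] at h0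
    exact h.2 h0
  · intro h0
    rw [compl_eq_univ_iff] at h0
    exact h.1.ne_empty h0

theorem Pr.inter {X Y : Finset V} (h : Pr X) (hn : (X ∩ Y).Nonempty) : Pr (X ∩ Y) :=
  ⟨hn, fun e => h.2 (univ_subset_iff.1 (e ▸ inter_subset_left))⟩

theorem Pr.union {X Y : Finset V} (h : Pr X) (hn : X ∪ Y ≠ univ) : Pr (X ∪ Y) :=
  ⟨h.1.mono subset_union_left, hn⟩

theorem pr_sdiff {X Y : Finset V} (h : ¬ X ⊆ Y) (h' : ¬ Y ⊆ X) : Pr (X \ Y) := by
  refine ⟨sdiff_nonempty.2 h, fun e => ?_⟩
  obtain ⟨y, hy, -⟩ := not_subset.1 h'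
  have : y ∈ X \ Y := e ▸ mem_univ y
  exact (mem_sdiff.1 this).2 hy

/-- one pair that can be split -/
theorem pair_exists (p : Finset V → ℤ) (I O : Multiset V) (v : V) (hv : v ∈ O)
    (hc : I.card = O.card)
    (hp : ∀ X Y, (X ∩ Y).Nonempty → X ∪ Y ≠ univ → p X + p Y ≤ p (X ∩ Y) + p (X ∪ Y))
    (h1 : ∀ X, Pr X → p X ≤ mu O X) (h2 : ∀ X, Pr X → p Xᶜ ≤ mu I X) :
    ∃ u ∈ I, ∀ X, Pr X → u ∈ X → v ∈ X → p X < mu O X ∧ p Xᶜ < mu I X := by
  classical
  have h1' : ∀ X, Pr X → p Xᶜ ≤ mu O Xᶜ := fun X h => h1 _ h.compl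
  have h2' : ∀ X, Pr X → p X ≤ mu I Xᶜ := fun X h => by simpa using h2 _ h.compl
  let T : Finset V → Prop := fun X => Pr X ∧ v ∈ X ∧ (p X = mu O X ∨ p Xᶜ = mu I X)
  have mixed : ∀ X Y, Pr X → Pr Y → v ∈ X → v ∈ Y → p X = mu O X → p Yᶜ = mu I Y →
      X ⊆ Y ∨ Y ⊆ X := by
    intro X Y hX hY hvX hvY eX eY
    by_contra! hh
    have a1 := pr_sdiff hh.1 hh.2
    have a2 := pr_sdiff hh.2 hh.1
    have e1 : X ∩ Yᶜ = X \ Y := by ext; simp
    have e2 : X ∪ Yᶜ = (Y \ X)ᶜ := by ext; simp; tauto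
    have := hp X Yᶜ (e1 ▸ a1.1) (e2 ▸ a2.compl.2)
    rw [e1, e2] at this
    have b1 := h1 _ a1
    have b2 := h2 _ a2
    have b3 := mu_sdiff O X Y
    have b4 := mu_mono I (sdiff_subset : Y \ X ⊆ Y)
    have b5 := mu_pos hv (mem_inter.2 ⟨hvX, hvY⟩)
    omega
  have hT : ∀ P Q, T P → T Q → (P ∩ Q).Nonempty → T (P ∪ Q) := by
    intro P Q hP hQ hne
    by_cases s1 : P ⊆ Q
    · rwa [union_eq_right.2 s1]
    by_cases s2 : Q ⊆ P
    · rwa [union_eq_left.2 s2]
    obtain ⟨hP, hvP, eP⟩ := hP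
    obtain ⟨hQ, hvQ, eQ⟩ := hQ
    have b5 := mu_pos hv (mem_inter.2 ⟨hvP, hvQ⟩)
    rcases eP with eP | eP <;> rcases eQ with eQ | eQ
    · have hu : P ∪ Q ≠ univ := by
        intro hu
        have c1 := h2' P hP
        have c2 := h2' Q hQ
        have c3 := mu_mod O P Q
        have c4 := mu_mod I Pᶜ Qᶜ
        have e : Pᶜ ∩ Qᶜ = ∅ := by rw [← compl_union, hu, compl_univ]
        have c5 : mu I (Pᶜ ∩ Qᶜ) = 0 := by rw [e]; simp [mu]
        have c6 := mu_le I (Pᶜ ∪ Qᶜ)
        have c7 : mu O (P ∪ Q) = O.card := mu_all (fun x _ => hu ▸ mem_univ x)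
        omega
      refine ⟨hP.union hu, mem_union_left _ hvP, Or.inl ?_⟩
      have c1 := hp P Q hne hu
      have c2 := h1 _ (hP.inter hne)
      have c3 := h1 _ (hP.union hu)
      have c4 := mu_mod O P Q
      omega
    · rcases mixed P Q hP hQ hvP hvQ eP eQ with h | h <;> contradiction
    · rcases mixed Q P hQ hP hvQ hvP eQ eP with h | h <;> contradiction
    · have hu : P ∪ Q ≠ univ := by
        intro hu
        have c1 := h1' P hP
        have c2 := h1' Q hQ
        have c3 := mu_mod I P Q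
        have c4 := mu_mod O Pᶜ Qᶜ
        have e : Pᶜ ∩ Qᶜ = ∅ := by rw [← compl_union, hu, compl_univ]
        have c5 : mu O (Pᶜ ∩ Qᶜ) = 0 := by rw [e]; simp [mu]
        have c6 := mu_compl O (P ∩ Q)
        rw [compl_inter] at c6
        have c7 : mu I (P ∪ Q) = I.card := mu_all (fun x _ => hu ▸ mem_univ x)
        have c8 := mu_nonneg I (P ∩ Q)
        omega
      refine ⟨hP.union hu, mem_union_left _ hvP, Or.inr ?_⟩
      have d1 : Pr (P ∪ Q) := hP.union hu
      have d2 : Pr (P ∩ Q) := hP.inter hne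
      have c1 := hp Pᶜ Qᶜ (by rw [← compl_union]; exact d1.compl.1)
        (by rw [← compl_inter]; exact d2.compl.2)
      rw [← compl_union, ← compl_inter] at c1
      have c2 := h2 _ d1
      have c3 := h2 _ d2
      have c4 := mu_mod I P Q
      omega
  have hI : 0 < I.card := by rw [hc]; exact Multiset.card_pos.2 (by rintro rfl; simp at hv)
  have fin : ∀ u ∈ I, (∀ X, T X → u ∉ X) →
      ∃ u ∈ I, ∀ X, Pr X → u ∈ X → v ∈ X → p X < mu O X ∧ p Xᶜ < mu I X := by
    intro u hu h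
    refine ⟨u, hu, fun X hX huX hvX => ⟨?_, ?_⟩⟩
    · exact lt_of_le_of_ne (h1 X hX) (fun e => h X ⟨hX, hvX, Or.inl e⟩ huX)
    · exact lt_of_le_of_ne (h2 X hX) (fun e => h X ⟨hX, hvX, Or.inr e⟩ huX)
  by_cases h0 : ∃ X, T X
  · obtain ⟨X0, hX0⟩ := h0
    obtain ⟨M, -, hM⟩ := Finite.exists_le_maximal hX0
    have hall : ∀ X, T X → X ⊆ M := fun X hX =>
      subset_union_right.trans (hM.2 (hT M X hM.1 hX ⟨v, mem_inter.2 ⟨hM.1.2.1, hX.2.1⟩⟩)
        subset_union_left)
    have : ∃ u ∈ I, u ∉ M := by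
      by_contra! hh
      have c1 := mu_all hh
      have c2 := mu_compl I M
      have c3 := mu_compl O M
      have c4 := mu_pos hv hM.1.2.1
      have c5 := h1' M hM.1.1
      have c6 := h2' M hM.1.1
      rcases hM.1.2.2 with e | e <;> omega
    obtain ⟨u, hu, huM⟩ := this
    exact fin u hu (fun X hX h => huM (hall X hX h))
  · obtain ⟨u, hu⟩ := Multiset.card_pos_iff_exists_mem.1 hI
    exact fin u hu (fun X hX _ => h0 ⟨X, hX⟩)

def ent (F : Multiset (V × V)) (X : Finset V) : ℤ := (F.countP (fun e => e.1 ∉ X ∧ e.2 ∈ X) : ℕ)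

theorem cover (n : ℕ) : ∀ (p : Finset V → ℤ) (I O : Multiset V), O.card = n → I.card = n →
    (∀ X Y, (X ∩ Y).Nonempty → X ∪ Y ≠ univ → p X + p Y ≤ p (X ∩ Y) + p (X ∪ Y)) →
    (∀ X, Pr X → p X ≤ mu O X) → (∀ X, Pr X → p Xᶜ ≤ mu I X) →
    ∃ F : Multiset (V × V), F.map Prod.fst = I ∧ F.map Prod.snd = O ∧
      ∀ X, Pr X → p X ≤ ent F X := by
  induction n with
  | zero =>
    intro p I O hO hI _ h1 _
    rw [Multiset.card_eq_zero] at hO hI
    subst hO hI
    exact ⟨0, rfl, rfl, fun X hX => by simpa [ent, mu_zero] using h1 X hX⟩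
  | succ n ih =>
    intro p I O hO hI hp h1 h2
    obtain ⟨v, hv⟩ := Multiset.card_pos_iff_exists_mem.1 (by omega : 0 < O.card)
    obtain ⟨u, hu, hs⟩ := pair_exists p I O v hv (by omega) hp h1 h2
    obtain ⟨O', rfl⟩ := Multiset.exists_cons_of_mem hv
    obtain ⟨I', rfl⟩ := Multiset.exists_cons_of_mem hu
    obtain ⟨F, f1, f2, f3⟩ := ih (fun X => p X - if u ∉ X ∧ v ∈ X then 1 else 0) I' O'
      (by simpa using hO) (by simpa using hI)
      (by
        intro X Y a b
        have := hp X Y a b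
        simp only [mem_inter, mem_union]
        by_cases c1 : u ∈ X <;> by_cases c2 : u ∈ Y <;> by_cases c3 : v ∈ X <;>
          by_cases c4 : v ∈ Y <;> simp [c1, c2, c3, c4] <;> omega)
      (by
        intro X hX
        have a := h1 X hX
        have b := hs X hX
        rw [mu_cons] at a b
        by_cases c1 : u ∈ X <;> by_cases c3 : v ∈ X <;> simp [c1, c3] at a b ⊢ <;> omega)
      (by
        intro X hX
        have a := h2 X hX
        have b := hs X hX
        rw [mu_cons u] at a b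
        by_cases c1 : u ∈ X <;> by_cases c3 : v ∈ X <;> simp [c1, c3] at a b ⊢ <;> omega)
    refine ⟨(u, v) ::ₘ F, by simp [f1], by simp [f2], fun X hX => ?_⟩
    have := f3 X hX
    unfold ent at *
    rw [Multiset.countP_cons]
    split_ifs at * <;> push_cast <;> omega

end Pool.Agent.H.MP_79518d_co
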