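import Pool.Agent.H.MP_79518d_co.A

set_option autoImplicit false
set_option linter.unusedSectionVars false

namespace Pool.Agent.H.MP_79518d_co

open Finset

variable {V : Type} [Fintype V] [DecidableEq V]

theorem step (g : Finset V → ℤ) (j : ℕ) (I I' O O' : Multiset V)
    (hun : ∀ P Q, Pr P → Pr Q → (P ∩ Q).Nonempty →
      (P ∪ Q ≠ univ ∧ g P + g Q ≤ g (P ∩ Q) + g (P ∪ Q)) ∨
        g P + g Q ≤ 2 * j - mu (I + I') (P ∪ Q)ᶜ - mu (O + O') (P ∪ Q)ᶜ)
    (hc : ∀ W : Finset (Finset V), Subpart W →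
      ∑ P ∈ W, g P ≤ 2 * j ∧ ∑ P ∈ W, g P ≤ j + mu (I + I') (W.biUnion id))
    (hI : j ≤ I.card) (hO : j < O.card) (hcov : ∀ P, Pr P → g P ≤ mu I P + mu O P) :
    ∃ J J' N N' : Multiset V, J + J' = I + I' ∧ N + N' = O + O' ∧ j ≤ J.card ∧ j ≤ N.card ∧
      J.card + N.card < I.card + O.card ∧ ∀ P, Pr P → g P ≤ mu J P + mu N P := by
  classical
  have unc : ∀ P Q, Pr P → Pr Q → (P ∩ Q).Nonempty →
      (Pr (P ∪ Q) ∧ g P + g Q ≤ g (P ∩ Q) + g (P ∪ Q)) ∨
        g P + g Q + 1 ≤ mu I (P ∪ Q) + mu O (P ∪ Q) := by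
    intro P Q hP hQ hne
    rcases hun P Q hP hQ hne with h | h
    · exact Or.inl ⟨hP.union h.1, h.2⟩
    · right
      rw [mu_add, mu_add] at h
      have := mu_compl I (P ∪ Q)
      have := mu_compl O (P ∪ Q)
      have := mu_nonneg I' (P ∪ Q)ᶜ
      have := mu_nonneg O' (P ∪ Q)ᶜ
      omega
  let T : Finset V → Prop := fun P => Pr P ∧ g P = mu I P + mu O P
  have tt : ∀ P Q, T P → T Q → (P ∩ Q).Nonempty → T (P ∩ Q) ∧ T (P ∪ Q) := by
    intro P Q hP hQ hne
    have m1 := mu_mod I P Q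
    have m2 := mu_mod O P Q
    have e1 := hP.2
    have e2 := hQ.2
    rcases unc P Q hP.1 hQ.1 hne with h | h
    · have c1 := hcov _ (hP.1.inter hne)
      have c2 := hcov _ h.1
      have := h.2
      exact ⟨⟨hP.1.inter hne, by omega⟩, ⟨h.1, by omega⟩⟩
    · have := mu_nonneg I (P ∩ Q)
      have := mu_nonneg O (P ∩ Q)
      omega
  have sumT : ∀ W : Finset (Finset V), (∀ P ∈ W, T P) →
      (∀ P ∈ W, ∀ Q ∈ W, P ≠ Q → Disjoint P Q) →
      Subpart W ∧ ∑ P ∈ W, g P = mu I (W.biUnion id) + mu O (W.biUnion id) := by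
    intro W h1 h2
    refine ⟨⟨fun P hP => (h1 P hP).1, h2⟩, ?_⟩
    rw [mu_biUnion _ _ h2, mu_biUnion _ _ h2, ← sum_add_distrib]
    exact sum_congr rfl (fun P hP => (h1 P hP).2)
  by_cases c1 : ∃ h ∈ O, ∀ P, T P → h ∉ P
  · obtain ⟨h, hh, hn⟩ := c1
    obtain ⟨O0, rfl⟩ := Multiset.exists_cons_of_mem hh
    refine ⟨I, I', O0, h ::ₘ O', rfl, by simp, hI, by simp at hO; omega, by simp, ?_⟩
    intro P hP
    have a := hcov P hP
    have b := hn P
    simp only [T, mu_cons] at a b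
    by_cases e : h ∈ P
    · simp only [e, if_true, not_true, hP, true_and, imp_false] at a b; omega
    · simpa [e] using a
  push Not at c1
  by_cases c2 : ∃ y ∈ I, ∀ P, T P → y ∉ P
  · obtain ⟨y, hy, hn⟩ := c2
    by_cases c3 : ∃ h ∈ O, ∀ P, T P → h ∈ P → ∃ x ∈ I', x ∈ P
    · obtain ⟨h, hh, hx⟩ := c3
      obtain ⟨P0, hP0⟩ := c1 h hh
      obtain ⟨M, hM⟩ := exists_minimal_of_wellFoundedLT (fun P => T P ∧ h ∈ P) ⟨P0, hP0⟩
      obtain ⟨x, hx', hxM⟩ := hx M hM.1.1 hM.1.2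
      have hall : ∀ P, T P → h ∈ P → x ∈ P := by
        intro P hP hhP
        have := (tt M P hM.1.1 hP ⟨h, mem_inter.2 ⟨hM.1.2, hhP⟩⟩).1
        have := hM.2 (y := M ∩ P) ⟨this, mem_inter.2 ⟨hM.1.2, hhP⟩⟩ inter_subset_left
        exact (mem_inter.1 (this hxM)).2
      have key : ∀ P, Pr P → h ∈ P → y ∈ P → x ∉ P → g P + 2 ≤ mu I P + mu O P := by
        intro P hP a1 a2 a3
        have hne : (M ∩ P).Nonempty := ⟨h, mem_inter.2 ⟨hM.1.2, a1⟩⟩
        have m1 := mu_mod I M P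
        have m2 := mu_mod O M P
        have e1 := hM.1.1.2
        rcases unc M P hM.1.1.1 hP hne with k | k
        · have d1 := hM.1.1.1.inter hne
          have c1 := hcov _ d1
          have c2 := hcov _ k.1
          have c3 : g (M ∩ P) ≠ mu I (M ∩ P) + mu O (M ∩ P) := fun e =>
            a3 (mem_inter.1 (hall _ ⟨d1, e⟩ (mem_inter.2 ⟨hM.1.2, a1⟩))).2
          have c4 : g (M ∪ P) ≠ mu I (M ∪ P) + mu O (M ∪ P) := fun e =>
            hn _ ⟨k.1, e⟩ (mem_union_right _ a2)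
          have := k.2
          omega
        · have := mu_nonneg I (M ∩ P)
          have := mu_pos hh (mem_inter.2 ⟨hM.1.2, a1⟩)
          omega
      have k1 : ∀ P, Pr P → y ∈ P → g P + 1 ≤ mu I P + mu O P := by
        intro P hP a
        have := hcov P hP
        have : g P ≠ mu I P + mu O P := fun e => hn _ ⟨hP, e⟩ a
        omega
      have k2 : ∀ P, Pr P → h ∈ P → x ∉ P → g P + 1 ≤ mu I P + mu O P := by
        intro P hP a b
        have := hcov P hP
        have : g P ≠ mu I P + mu O P := fun e => b (hall _ ⟨hP, e⟩ a)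
        omega
      clear hall hx hM c1 hn sumT tt unc hP0
      obtain ⟨O0, rfl⟩ := Multiset.exists_cons_of_mem hh
      obtain ⟨I0, rfl⟩ := Multiset.exists_cons_of_mem hy
      obtain ⟨I0', rfl⟩ := Multiset.exists_cons_of_mem hx'
      refine ⟨x ::ₘ I0, y ::ₘ I0', O0, h ::ₘ O', ?_, by simp, by simpa using hI,
        by simp at hO; omega, by simp, ?_⟩
      · simp only [Multiset.cons_add, Multiset.add_cons]; exact Multiset.cons_swap _ _ _
      · intro P hP
        have a := hcov P hP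
        have b1 := key P hP
        have b2 := k1 P hP
        have b3 := k2 P hP
        simp only [mu_cons] at a b1 b2 b3 ⊢
        by_cases e1 : h ∈ P <;> by_cases e2 : y ∈ P <;> by_cases e3 : x ∈ P <;>
          simp [e1, e2, e3] at a b1 b2 b3 ⊢ <;> omega
    · exfalso
      push Not at c3
      obtain ⟨W, w1, w2, w3⟩ := disjointify (fun P => T P ∧ ∀ x ∈ I', x ∉ P) (by
        intro P Q hP hQ hne
        refine ⟨(tt P Q hP.1 hQ.1 hne).2, fun x hx hm => ?_⟩
        rcases mem_union.1 hm with h | h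
        · exact hP.2 x hx h
        · exact hQ.2 x hx h)
      obtain ⟨s1, s2⟩ := sumT W (fun P hP => (w1 P hP).1) w2
      have a := (hc W s1).2
      have b1 : mu O (W.biUnion id) = O.card := mu_all (fun h hh => by
        obtain ⟨P, p1, p2, p3⟩ := c3 h hh
        exact w3 P ⟨p1, p3⟩ p2)
      have b2 : mu I' (W.biUnion id) = 0 := mu_none (fun x hx hm => by
        obtain ⟨P, p1, p2⟩ := mem_biUnion.1 hm
        exact (w1 P p1).2 x hx p2)
      rw [mu_add] at a
      omega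
  · exfalso
    push Not at c2
    obtain ⟨W, w1, w2, w3⟩ := disjointify T (fun P Q hP hQ hne => (tt P Q hP hQ hne).2)
    obtain ⟨s1, s2⟩ := sumT W w1 w2
    have a := (hc W s1).1
    have b1 : mu O (W.biUnion id) = O.card := mu_all (fun h hh => by
      obtain ⟨P, p1, p2⟩ := c1 h hh
      exact w3 P p1 p2)
    have b2 : mu I (W.biUnion id) = I.card := mu_all (fun h hh => by
      obtain ⟨P, p1, p2⟩ := c2 h hh
      exact w3 P p1 p2)
    omega

theorem select (g : Finset V → ℤ) (j : ℕ) (a b : Multiset V)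
    (hun : ∀ P Q, Pr P → Pr Q → (P ∩ Q).Nonempty →
      (P ∪ Q ≠ univ ∧ g P + g Q ≤ g (P ∩ Q) + g (P ∪ Q)) ∨
        g P + g Q ≤ 2 * j - mu a (P ∪ Q)ᶜ - mu b (P ∪ Q)ᶜ)
    (hc : ∀ W : Finset (Finset V), Subpart W →
      ∑ P ∈ W, g P ≤ 2 * j ∧ ∑ P ∈ W, g P ≤ j + mu a (W.biUnion id) ∧
        ∑ P ∈ W, g P ≤ j + mu b (W.biUnion id)) (n : ℕ) :
    ∀ I I' O O' : Multiset V, I + I' = a → O + O' = b → j ≤ I.card → j ≤ O.card →
      I.card + O.card = n → (∀ P, Pr P → g P ≤ mu I P + mu O P) →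
    ∃ J J' N N' : Multiset V, J + J' = a ∧ N + N' = b ∧ J.card = j ∧ N.card = j ∧
      ∀ P, Pr P → g P ≤ mu J P + mu N P := by
  induction n using Nat.strong_induction_on with
  | _ n ih =>
    intro I I' O O' ea eb hI hO hn hcov
    by_cases c1 : j < O.card
    · obtain ⟨J, J', N, N', e1, e2, h1, h2, h3, h4⟩ := step g j I I' O O' (by rwa [ea, eb])
        (fun W hW => by rw [ea]; exact ⟨(hc W hW).1, (hc W hW).2.1⟩) hI c1 hcov
      exact ih _ (hn ▸ h3) J J' N N' (e1.trans ea) (e2.trans eb) h1 h2 rfl h4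
    by_cases c2 : j < I.card
    · obtain ⟨J, J', N, N', e1, e2, h1, h2, h3, h4⟩ := step g j O O' I I'
        (fun P Q x y z => by
          rw [ea, eb]
          rcases hun P Q x y z with h | h
          · exact Or.inl h
          · right; omega)
        (fun W hW => by rw [eb]; exact ⟨(hc W hW).1, (hc W hW).2.2⟩) hO c2
        (fun P hP => by rw [add_comm]; exact hcov P hP)
      exact ih _ (by omega) N N' J J' (e2.trans ea) (e1.trans eb) h2 h1 rfl
        (fun P hP => by rw [add_comm]; exact h4 P hP)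
    exact ⟨I, I', O, O', ea, eb, by omega, by omega, hcov⟩

def ins (F : Multiset (V × V)) (X : Finset V) : ℤ := (F.countP (fun e => e.1 ∈ X ∧ e.2 ∈ X) : ℕ)

theorem ins_ent (F : Multiset (V × V)) (X : Finset V) :
    ins F X + ent F X = mu (F.map Prod.snd) X ∧ ins F X + ent F Xᶜ = mu (F.map Prod.fst) X := by
  induction F using Multiset.induction_on with
  | empty => simp [ins, ent, mu]
  | cons e F ih =>
    simp only [Multiset.map_cons, mu_cons]
    unfold ins ent at *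
    simp only [Multiset.countP_cons, mem_compl] at *
    by_cases h1 : e.1 ∈ X <;> by_cases h2 : e.2 ∈ X <;> simp [h1, h2] at ih ⊢ <;> omega

theorem ins_ge (F : Multiset (V × V)) (X : Finset V) :
    (F.card : ℤ) ≤ ins F Xᶜ + mu (F.map Prod.fst) X + mu (F.map Prod.snd) X := by
  induction F using Multiset.induction_on with
  | empty => simp [ins, mu]
  | cons e F ih =>
    simp only [Multiset.map_cons, mu_cons]
    unfold ins at *
    simp only [Multiset.countP_cons, mem_compl, Multiset.card_cons] at *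
    by_cases h1 : e.1 ∈ X <;> by_cases h2 : e.2 ∈ X <;> simp [h1, h2] at ih ⊢ <;> omega

theorem suff (r : Finset V → ℤ) (a b : Multiset V) (k : ℤ) (j : ℕ)
    (hr : ∀ X Y, r (X ∩ Y) + r (X ∪ Y) ≤ r X + r Y)
    (hk : ∀ X, Pr X → k ≤ r X + mu b X ∧ k ≤ r Xᶜ + mu a X)
    (ha : j ≤ a.card) (hb : j ≤ b.card)
    (hc : ∀ W : Finset (Finset V), Subpart W →
      ∑ P ∈ W, (j + k - min (r Pᶜ + mu b Pᶜ) (r P + mu a Pᶜ)) ≤ 2 * j ∧
      ∑ P ∈ W, (j + k - min (r Pᶜ + mu b Pᶜ) (r P + mu a Pᶜ)) ≤ j + mu a (W.biUnion id) ∧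
      ∑ P ∈ W, (j + k - min (r Pᶜ + mu b Pᶜ) (r P + mu a Pᶜ)) ≤ j + mu b (W.biUnion id)) :
    ∃ F : Multiset (V × V), F.map Prod.fst ≤ a ∧ F.map Prod.snd ≤ b ∧ F.card = j ∧
      ∀ X, Pr X → ins F X + k ≤ r X + mu b X ∧ ins F X + k ≤ r Xᶜ + mu a X := by
  have hk' : ∀ X, Pr X → k ≤ r Xᶜ + mu b Xᶜ ∧ k ≤ r X + mu a Xᶜ := fun X hX => by
    simpa using hk _ hX.compl
  have mixed : ∀ P Q, ¬ P ⊆ Q → ¬ Q ⊆ P → (k - (r Pᶜ + mu b Pᶜ)) + (k - (r Q + mu a Qᶜ)) ≤
      - mu a (P ∪ Q)ᶜ - mu b (P ∪ Q)ᶜ := by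
    intro P Q s1 s2
    have c1 := hr Pᶜ Q
    have e1 : Pᶜ ∩ Q = Q \ P := by ext; simp; tauto
    have e2 : Pᶜ ∪ Q = (P \ Q)ᶜ := by ext; simp; tauto
    rw [e1, e2] at c1
    have c2 := (hk _ (pr_sdiff s2 s1)).1
    have c3 := (hk _ (pr_sdiff s1 s2)).2
    have c4 := mu_sc b P Q
    have c5 := mu_sc a Q P
    rw [union_comm] at c5
    omega
  obtain ⟨I, I', O, O', ea, eb, cI, cO, hcov⟩ := select
    (fun P => j + k - min (r Pᶜ + mu b Pᶜ) (r P + mu a Pᶜ)) j a b (by
      intro P Q hP hQ hne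
      by_cases hu : P ∪ Q = univ
      · right
        have := hk' P hP
        have := hk' Q hQ
        rw [hu, compl_univ]
        have e0 : ∀ M : Multiset V, mu M ∅ = 0 := fun M => by simp [mu]
        rw [e0, e0]
        omega
      by_cases s1 : P ⊆ Q
      · left; rw [union_eq_right.2 s1, inter_eq_left.2 s1]; exact ⟨hQ.2, le_rfl⟩
      by_cases s2 : Q ⊆ P
      · left; rw [union_eq_left.2 s2, inter_eq_right.2 s2]; exact ⟨hP.2, by omega⟩
      have m1 := mixed P Q s1 s2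
      have m2 := mixed Q P s2 s1
      rw [union_comm Q P] at m2
      have c1 := hr P Q
      have c2 := hr Pᶜ Qᶜ
      have c3 := mu_mod a Pᶜ Qᶜ
      have c4 := mu_mod b Pᶜ Qᶜ
      rw [← compl_union, ← compl_inter] at c2 c3 c4
      simp only [ne_eq, hu, not_false_eq_true, true_and]
      omega) hc _ a 0 b 0 (by simp) (by simp) ha hb rfl (by
      intro P hP
      have := hk P hP
      have := mu_compl a P
      have := mu_compl b P
      omega)
  subst ea eb
  obtain ⟨F, f1, f2, f3⟩ := cover j (fun X => k - r X - min (mu O' X) (mu I' Xᶜ)) I O cO cI (by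
      intro X Y _ _
      have c1 := hr X Y
      have c2 := mu_mod O' X Y
      have c3 := mu_mod I' Xᶜ Yᶜ
      rw [← compl_union, ← compl_inter] at c3
      have d1 := mu_mono O' (inter_subset_left : X ∩ Y ⊆ X)
      have d2 := mu_mono O' (inter_subset_right : X ∩ Y ⊆ Y)
      have d3 := mu_mono I' (compl_subset_compl.2 (subset_union_left : X ⊆ X ∪ Y))
      have d4 := mu_mono I' (compl_subset_compl.2 (subset_union_right : Y ⊆ X ∪ Y))
      omega) (by
      intro X hX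
      have c1 := hk X hX
      have c2 := hcov X hX
      have c3 := mu_compl I X
      simp only [mu_add] at c1 c2
      omega) (by
      intro X hX
      have c1 := hk X hX
      have c2 := hcov X hX
      have c3 := mu_compl O X
      simp only [mu_add, compl_compl] at c1 c2 ⊢
      omega)
  refine ⟨F, f1 ▸ Multiset.le_add_right _ _, f2 ▸ Multiset.le_add_right _ _, ?_, ?_⟩
  · rw [← cI, ← f1]; simp
  · intro X hX
    have c1 := f3 X hX
    have c2 := f3 _ hX.compl
    have c3 := ins_ent F X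
    rw [f1, f2] at c3
    simp only [mu_add, compl_compl] at c2 ⊢
    omega

end Pool.Agent.H.MP_79518d_co
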