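import Pool.Agent.H.MP_79518d_co.B

set_option autoImplicit false
set_option linter.unusedSectionVars false
set_option linter.unusedSimpArgs false

namespace Pool.Agent.H.MP_79518d_co

open Finset

variable {V : Type} [Fintype V] [DecidableEq V]

def fa (e : Option V × Option V) : Option V := if e.2 = none then e.1 else none
def fb (e : Option V × Option V) : Option V := if e.1 = none then e.2 else none
def r0 (D : DG V) (X : Finset V) : ℤ :=
  (D.countP (fun e => e.1 ∈ Xᶜ.image some ∧ e.2 ∈ X.image some) : ℕ)

theorem mem_none (X : Finset V) : (none ∈ X.image some) = False := by simp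
theorem mem_some (X : Finset V) (v : V) : (some v ∈ X.image some) = (v ∈ X) := by simp

theorem cp1 (X : Finset V) (u : V) :
    Multiset.countP (fun x => x ∈ X) {u} = if u ∈ X then 1 else 0 := by
  rw [← Multiset.cons_zero, Multiset.countP_cons]; simp

theorem mu_a (D : DG V) (X : Finset V) : mu (D.filterMap fa) X = toS D X := by
  induction D using Multiset.induction_on with
  | empty => simp [mu, toS]
  | cons e D ih =>
    unfold toS at *
    rw [Multiset.countP_cons, Multiset.filterMap_cons, mu_add, ih]
    rcases e with ⟨_ | u, _ | v⟩ <;> simp only [fa, mem_none, mem_some] <;>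
      simp [mu, -mem_image]
    by_cases h : u ∈ X <;> simp [h, -mem_image, add_comm, cp1]

theorem mu_b (D : DG V) (X : Finset V) : mu (D.filterMap fb) X = fromS D X := by
  induction D using Multiset.induction_on with
  | empty => simp [mu, fromS]
  | cons e D ih =>
    unfold fromS at *
    rw [Multiset.countP_cons, Multiset.filterMap_cons, mu_add, ih]
    rcases e with ⟨_ | u, _ | v⟩ <;> simp only [fb, mem_none, mem_some] <;>
      simp [mu, -mem_image]
    by_cases h : v ∈ X <;> simp [h, -mem_image, add_comm, cp1]

theorem rho_eq (D : DG V) (X : Finset V) : (rho D X : ℤ) = r0 D X + fromS D X := by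
  induction D using Multiset.induction_on with
  | empty => simp [rho, r0, fromS]
  | cons e D ih =>
    unfold rho r0 fromS at *
    simp only [Multiset.countP_cons]
    push_cast
    rw [ih]
    rcases e with ⟨_ | u, _ | v⟩ <;> simp only [mem_none, mem_some, mem_compl] <;>
      simp [-mem_image] <;> omega

theorem delta_eq (D : DG V) (X : Finset V) : (delta D X : ℤ) = r0 D Xᶜ + toS D X := by
  induction D using Multiset.induction_on with
  | empty => simp [delta, r0, toS]
  | cons e D ih =>
    unfold delta r0 toS at *
    simp only [Multiset.countP_cons]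
    push_cast
    rw [ih]
    rcases e with ⟨_ | u, _ | v⟩ <;> simp only [mem_none, mem_some, mem_compl, compl_compl] <;>
      simp [-mem_image] <;> omega

theorem r0_sub (D : DG V) (X Y : Finset V) : r0 D (X ∩ Y) + r0 D (X ∪ Y) ≤ r0 D X + r0 D Y := by
  induction D using Multiset.induction_on with
  | empty => simp [r0]
  | cons e D ih =>
    unfold r0 at *
    simp only [Multiset.countP_cons]
    push_cast
    rcases e with ⟨_ | u, _ | v⟩ <;>
      simp only [mem_none, mem_some, mem_compl, mem_inter, mem_union, false_and, and_false,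
        if_false]
    · omega
    · omega
    · omega
    · by_cases c1 : u ∈ X <;> by_cases c2 : u ∈ Y <;> by_cases c3 : v ∈ X <;>
        by_cases c4 : v ∈ Y <;>
        simp only [c1, c2, c3, c4, true_and, and_true, false_and, and_false, not_true, not_false_eq_true,
          or_true, true_or, or_false, if_true, if_false] <;> omega

theorem used_cons (e : V × V) (F : Multiset (V × V)) :
    used (e ::ₘ F) = (some e.1, none) ::ₘ (none, some e.2) ::ₘ used F := by
  simp only [used, Multiset.map_cons, Multiset.cons_add, Multiset.add_cons]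
  exact Multiset.cons_swap _ _ _

def new (F : Multiset (V × V)) : DG V :=
  (F.filter (fun p => p.1 ≠ p.2)).map (fun p => (some p.1, some p.2))

theorem used_new (F : Multiset (V × V)) (X : Finset V) :
    (rho (used F) X : ℤ) = rho (new F) X + ins F X ∧
      (delta (used F) X : ℤ) = delta (new F) X + ins F X := by
  induction F using Multiset.induction_on with
  | empty => simp [rho, delta, used, new, ins]
  | cons e F ih =>
    rw [used_cons]
    obtain ⟨u, v⟩ := e
    unfold rho delta ins new at *
    by_cases h : u = v
    · subst h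
      rw [Multiset.filter_cons_of_neg _ (by simp)]
      simp only [Multiset.countP_cons, mem_none, mem_some]
      by_cases c : u ∈ X <;>
        simp only [c, true_and, and_true, false_and, and_false, not_true, not_false_eq_true,
          if_true, if_false] <;> omega
    · rw [Multiset.filter_cons_of_pos _ (by simpa using h)]
      simp only [Multiset.map_cons, Multiset.countP_cons, mem_none, mem_some]
      by_cases c : u ∈ X <;> by_cases c' : v ∈ X <;>
        simp only [c, c', true_and, and_true, false_and, and_false, not_true, not_false_eq_true,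
          if_true, if_false] <;> omega

theorem split_eq (D : DG V) (F : Multiset (V × V)) (h : used F ≤ D) (X : Finset V) :
    (rho (split D F) X : ℤ) + ins F X = rho D X ∧ (delta (split D F) X : ℤ) + ins F X = delta D X := by
  obtain ⟨R, rfl⟩ := Multiset.le_iff_exists_add.1 h
  have e : split (used F + R) F = R + new F := by
    unfold split new; rw [add_tsub_cancel_left]
  have := used_new F X
  rw [e]
  unfold rho delta at *
  simp only [Multiset.countP_add]
  omega

theorem fa_used (F : Multiset (V × V)) :
    (used F).filterMap fa = F.map Prod.fst ∧ (used F).filterMap fb = F.map Prod.snd := by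
  induction F using Multiset.induction_on with
  | empty => simp [used]
  | cons e F ih =>
    rw [used_cons]
    simp [Multiset.filterMap_cons, fa, fb, ih.1, ih.2]

theorem back (D : DG V) : (D.filterMap fa).map (fun u => (some u, none)) +
    (D.filterMap fb).map (fun v => (none, some v)) ≤ D := by
  induction D using Multiset.induction_on with
  | empty => simp
  | cons e D ih =>
    rcases e with ⟨_ | u, _ | v⟩ <;>
      simp [Multiset.filterMap_cons, fa, fb, Multiset.cons_le_cons_iff, ih]
    · exact ih.trans (Multiset.le_cons_self _ _)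
    · exact ih.trans (Multiset.le_cons_self _ _)

theorem used_le (D : DG V) (F : Multiset (V × V)) :
    used F ≤ D ↔ F.map Prod.fst ≤ D.filterMap fa ∧ F.map Prod.snd ≤ D.filterMap fb := by
  constructor
  · intro h
    rw [← (fa_used F).1, ← (fa_used F).2]
    exact ⟨Multiset.filterMap_le_filterMap _ h, Multiset.filterMap_le_filterMap _ h⟩
  · rintro ⟨h1, h2⟩
    refine le_trans ?_ (back D)
    have a1 := Multiset.map_le_map (f := fun u => ((some u, none) : Option V × Option V)) h1
    have a2 := Multiset.map_le_map (f := fun u => ((none, some u) : Option V × Option V)) h2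
    rw [Multiset.map_map] at a1 a2
    exact add_le_add a1 a2

theorem mu_le_of_le {M N : Multiset V} (h : M ≤ N) (X : Finset V) : mu M X ≤ mu N X := by
  obtain ⟨R, rfl⟩ := Multiset.le_iff_exists_add.1 h
  have := mu_nonneg R X
  rw [mu_add]; omega

theorem surplus_cast (D : DG V) (k : ℕ) (hD : KConn D k) (W : Finset (Finset V)) (hW : Subpart W)
    (j : ℕ) : ∑ P ∈ W, ((j : ℤ) + k - min (rho D Pᶜ : ℤ) (delta D Pᶜ)) =
      W.card * j - surplus D k W := by
  unfold surplus
  rw [Nat.cast_sum, ← nsmul_eq_mul, ← sum_const, ← sum_sub_distrib]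
  refine sum_congr rfl (fun P hP => ?_)
  have h := Pr.compl (hW.1 P hP)
  have := hD _ h.1 h.2
  omega

theorem char (D : DG V) (k : ℕ) (hD : KConn D k) (j : ℕ) :
    (∃ F, Admissible D k F ∧ F.card = j) ↔ j ≤ toS D univ ∧ j ≤ fromS D univ ∧
      ∀ W, Subpart W → W.card * j ≤ surplus D k W +
        min (2 * j) (j + min (toS D (W.biUnion id)) (fromS D (W.biUnion id))) := by
  have ca : ((D.filterMap fa).card : ℤ) = toS D univ := by
    rw [← mu_a, mu_all (fun _ _ => mem_univ _)]
  have cb : ((D.filterMap fb).card : ℤ) = fromS D univ := by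
    rw [← mu_b, mu_all (fun _ _ => mem_univ _)]
  constructor
  · rintro ⟨F, ⟨h1, h2⟩, rfl⟩
    obtain ⟨l1, l2⟩ := (used_le D F).1 h1
    have c1 := Multiset.card_le_card l1
    have c2 := Multiset.card_le_card l2
    rw [Multiset.card_map] at c1 c2
    refine ⟨by omega, by omega, fun W hW => ?_⟩
    have s1 := surplus_cast D k hD W hW F.card
    have s2 : ∑ P ∈ W, ((F.card : ℤ) + k - min (rho D Pᶜ : ℤ) (delta D Pᶜ)) ≤
        mu (F.map Prod.fst) (W.biUnion id) + mu (F.map Prod.snd) (W.biUnion id) := by
      rw [mu_biUnion _ _ hW.2, mu_biUnion _ _ hW.2, ← sum_add_distrib]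
      refine sum_le_sum (fun P hP => ?_)
      have h := Pr.compl (hW.1 P hP)
      have := h2 _ h.1 h.2
      have := split_eq D F h1 Pᶜ
      have := ins_ge F P
      omega
    have d1 := mu_le (F.map Prod.fst) (W.biUnion id)
    have d2 := mu_le (F.map Prod.snd) (W.biUnion id)
    have d3 := mu_le_of_le l1 (W.biUnion id)
    have d4 := mu_le_of_le l2 (W.biUnion id)
    rw [Multiset.card_map] at d1 d2
    rw [mu_a] at d3
    rw [mu_b] at d4
    rw [s1, ← Nat.cast_mul] at s2
    omega
  · rintro ⟨h1, h2, h3⟩
    obtain ⟨F, f1, f2, f3, f4⟩ := suff (r0 D) (D.filterMap fa) (D.filterMap fb) k j (r0_sub D)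
      (fun X hX => by
        rw [mu_a, mu_b, ← rho_eq, ← delta_eq]
        have := hD X hX.1 hX.2
        omega) (by omega) (by omega) (fun W hW => by
        have e : ∀ P : Finset V, min (r0 D Pᶜ + mu (D.filterMap fb) Pᶜ)
            (r0 D P + mu (D.filterMap fa) Pᶜ) = min (rho D Pᶜ : ℤ) (delta D Pᶜ) := by
          intro P
          rw [mu_a, mu_b, rho_eq, delta_eq, compl_compl]
        simp only [e]
        rw [surplus_cast D k hD W hW j, mu_a, mu_b, ← Nat.cast_mul]
        have := h3 W hW
        omega)
    have hu := (used_le D F).2 ⟨f1, f2⟩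
    refine ⟨F, ⟨hu, fun X x1 x2 => ?_⟩, f3⟩
    have a := f4 X ⟨x1, x2⟩
    rw [mu_a, mu_b, ← rho_eq, ← delta_eq] at a
    have := split_eq D F hu X
    omega

theorem char' (D : DG V) (k : ℕ) (hD : KConn D k) (j : ℕ) :
    (∃ F, Admissible D k F ∧ F.card = j) ↔ ∀ n ∈ bounds D k, j ≤ n := by
  rw [char D k hD]
  constructor
  · rintro ⟨h1, h2, h3⟩ n (rfl | rfl | ⟨W, hW, ⟨hc, rfl⟩ | ⟨hc, rfl⟩⟩)
    · exact h1
    · exact h2
    · have := h3 W hW
      rw [Nat.le_div_iff_mul_le (by omega)]
      obtain ⟨t, ht⟩ : ∃ t, W.card = t + 2 := ⟨W.card - 2, by omega⟩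
      rw [ht] at this ⊢
      rw [Nat.add_sub_cancel, mul_comm]
      rw [add_mul] at this
      omega
    · have := h3 W hW
      rw [Nat.le_div_iff_mul_le (by omega)]
      obtain ⟨t, ht⟩ : ∃ t, W.card = t + 1 := ⟨W.card - 1, by omega⟩
      rw [ht] at this ⊢
      rw [Nat.add_sub_cancel, mul_comm]
      rw [add_mul] at this
      omega
  · intro h
    refine ⟨h _ (Or.inl rfl), h _ (Or.inr (Or.inl rfl)), fun W hW => ?_⟩
    have a1 : W.card * j ≤ surplus D k W + 2 * j := by
      by_cases hc : 3 ≤ W.card
      · have := h _ (Or.inr (Or.inr ⟨W, hW, Or.inl ⟨hc, rfl⟩⟩))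
        rw [Nat.le_div_iff_mul_le (by omega)] at this
        obtain ⟨t, ht⟩ : ∃ t, W.card = t + 2 := ⟨W.card - 2, by omega⟩
        rw [ht] at this ⊢
        rw [Nat.add_sub_cancel, mul_comm] at this
        rw [add_mul]
        omega
      · have := Nat.mul_le_mul_right j (show W.card ≤ 2 by omega)
        omega
    have a2 : W.card * j ≤ surplus D k W +
        (j + min (toS D (W.biUnion id)) (fromS D (W.biUnion id))) := by
      by_cases hc : 2 ≤ W.card
      · have := h _ (Or.inr (Or.inr ⟨W, hW, Or.inr ⟨hc, rfl⟩⟩))
        rw [Nat.le_div_iff_mul_le (by omega)] at this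
        obtain ⟨t, ht⟩ : ∃ t, W.card = t + 1 := ⟨W.card - 1, by omega⟩
        rw [ht] at this ⊢
        rw [Nat.add_sub_cancel, mul_comm] at this
        rw [add_mul]
        omega
      · have := Nat.mul_le_mul_right j (show W.card ≤ 1 by omega)
        omega
    omega

end Pool.Agent.H.MP_79518d_co
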