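import Mathlib

set_option autoImplicit false

namespace Pool.Agent.H.MP_79518d_co

variable {V : Type} [Fintype V] [DecidableEq V]

/-- A digraph on `V + s` with parallel arcs allowed: the multiset of its arcs (tail, head);
the vertex `s` is `none`, a vertex `v` of `V` is `some v`. -/
abbrev DG (V : Type) := Multiset (Option V × Option V)

/-- number of arcs entering `X` -/
def rho (D : DG V) (X : Finset V) : ℕ :=
  D.countP (fun e => e.1 ∉ X.image some ∧ e.2 ∈ X.image some)

/-- number of arcs leaving `X` -/
def delta (D : DG V) (X : Finset V) : ℕ :=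
  D.countP (fun e => e.1 ∈ X.image some ∧ e.2 ∉ X.image some)

/-- number of arcs from `X` to `s` -/
def toS (D : DG V) (X : Finset V) : ℕ := D.countP (fun e => e.1 ∈ X.image some ∧ e.2 = none)

/-- number of arcs from `s` to `X` -/
def fromS (D : DG V) (X : Finset V) : ℕ := D.countP (fun e => e.1 = none ∧ e.2 ∈ X.image some)

/-- `k`-arc-connected in `V` -/
def KConn (D : DG V) (k : ℕ) : Prop :=
  ∀ X : Finset V, X.Nonempty → X ≠ Finset.univ → k ≤ rho D X ∧ k ≤ delta D X

/-- A family of pairs `(us, sv)` is recorded as the multiset `F` of the pairs `(u, v)`;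
`used F` is the multiset of all the arcs `us` and `sv` of these pairs. -/
def used (F : Multiset (V × V)) : DG V :=
  F.map (fun p => (some p.1, none)) + F.map (fun p => (none, some p.2))

/-- delete the arcs of the pairs, add the arcs `uv`, discard loops -/
def split (D : DG V) (F : Multiset (V × V)) : DG V :=
  D - used F + (F.filter (fun p => p.1 ≠ p.2)).map (fun p => (some p.1, some p.2))

/-- the pairs are pairwise disjoint pairs of arcs of `D`, and splitting all of them off keeps
`k`-arc-connectivity in `V` -/
def Admissible (D : DG V) (k : ℕ) (F : Multiset (V × V)) : Prop :=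
  used F ≤ D ∧ KConn (split D F) k

/-- a family of pairwise disjoint nonempty proper subsets of `V` -/
def Subpart (W : Finset (Finset V)) : Prop :=
  (∀ P ∈ W, P.Nonempty ∧ P ≠ Finset.univ) ∧ ∀ P ∈ W, ∀ Q ∈ W, P ≠ Q → Disjoint P Q

/-- total surplus of the complements: the sum of `min (ρ(V - P)) (δ(V - P)) - k` -/
def surplus (D : DG V) (k : ℕ) (W : Finset (Finset V)) : ℕ :=
  ∑ P ∈ W, (min (rho D Pᶜ) (delta D Pᶜ) - k)

/-- the numbers over which the minimum is taken -/
def bounds (D : DG V) (k : ℕ) : Set ℕ :=
  {n | n = toS D Finset.univ ∨ n = fromS D Finset.univ ∨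
    ∃ W : Finset (Finset V), Subpart W ∧
      ((3 ≤ W.card ∧ n = surplus D k W / (W.card - 2)) ∨
       (2 ≤ W.card ∧ n = (surplus D k W +
          min (toS D (W.biUnion id)) (fromS D (W.biUnion id))) / (W.card - 1)))}

end Pool.Agent.H.MP_79518d_co
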